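import Pool.Agent.Helper28.T7.StW

/-!
# Project T7 (levels `7 p^n`), all weights, module UIp: symbols for the extended group invariant under the scaling by `p`

Port of the module `Pool/Agent/Helper57/TKW/M_UIp.lean` (levels `3 p^n`). The group of all `γ` with `χ∘γ ≈ χ` contains `(1 1; 0 1)`, `(1 0; 7 1)`,
`W = (0 -1; 7 0)` and all matrices of determinant one with lower left entry `7`, in particular the matrices `A = (2 -1; 7 -3)` and `B = (5 -3; 7 -4)` of finite order;
`6 χ` is invariant (without constants) under these, hence constant by a descent.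
-/

set_option autoImplicit false

open Pool.Agent.Helper14.CV

namespace Pool.Agent.Helper88.T7W

open Pool.Agent.Helper28.TH (OkH ALPlus)

open Pool.Agent.Helper28.T7 Pool.Agent.Helper28.WK

private theorem inv_inv {R : Type} [AddCommGroup R] {χ : ℤ → ℤ → R} {a b c d : ℤ}
    (hd : a * d - b * c = 1) (h : EqC (act a b c d χ) χ) : EqC (act d (-b) (-c) a χ) χ := by
  have hd' : d * a - -b * -c = 1 := by linarith
  have h1 : EqC (act d (-b) (-c) a (act a b c d χ)) (act d (-b) (-c) a χ) :=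
    h.act (by rw [hd']; exact one_ne_zero)
  have h2 : act d (-b) (-c) a (act a b c d χ) = χ := by
    rw [act_act]
    have e1 : a * d + b * -c = 1 := by linarith
    have e2 : a * -b + b * a = 0 := by ring
    have e3 : c * d + d * -c = 0 := by ring
    have e4 : c * -b + d * a = 1 := by linarith
    rw [e1, e2, e3, e4, act_one]
  rw [h2] at h1
  exact h1.symm

private theorem up {R : Type} [AddCommGroup R] {χ : ℤ → ℤ → R}
    (hT : EqC (act 1 1 0 1 χ) χ) (k : ℤ) : EqC (act 1 k 0 1 χ) χ := by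
  have hT' : EqC (act 1 (-1) 0 1 χ) χ := by
    have := inv_inv (by norm_num) hT
    simpa using this
  induction k using Int.induction_on with
  | zero => rw [act_one]; exact EqC.refl _
  | succ i ih =>
    have e : act 1 ((i : ℤ) + 1) 0 1 χ = act 1 1 0 1 (act 1 (i : ℤ) 0 1 χ) := by
      rw [act_act]
      congr 1 <;> ring
    rw [e]
    exact (ih.act (by norm_num)).trans hT
  | pred i ih =>
    have e : act 1 (-(i : ℤ) - 1) 0 1 χ = act 1 (-1) 0 1 (act 1 (-(i : ℤ)) 0 1 χ) := by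
      rw [act_act]
      congr 1 <;> ring
    rw [e]
    exact (ih.act (by norm_num)).trans hT'

private theorem lo {R : Type} [AddCommGroup R] {χ : ℤ → ℤ → R}
    (hL : EqC (act 1 0 7 1 χ) χ) (k : ℤ) : EqC (act 1 0 (7 * k) 1 χ) χ := by
  have hL' : EqC (act 1 0 (-7) 1 χ) χ := by
    have := inv_inv (by norm_num) hL
    simpa using this
  induction k using Int.induction_on with
  | zero =>
    rw [mul_zero, act_one]; exact EqC.refl _
  | succ i ih =>
    have e : act 1 0 (7 * ((i : ℤ) + 1)) 1 χ = act 1 0 7 1 (act 1 0 (7 * (i : ℤ)) 1 χ) := by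
      rw [act_act]
      congr 1 <;> ring
    rw [e]
    exact (ih.act (by norm_num)).trans hL
  | pred i ih =>
    have e : act 1 0 (7 * (-(i : ℤ) - 1)) 1 χ = act 1 0 (-7) 1 (act 1 0 (7 * -(i : ℤ)) 1 χ) := by
      rw [act_act]
      congr 1 <;> ring
    rw [e]
    exact (ih.act (by norm_num)).trans hL'

/-- The height of a vector with second entry `y`. -/
private def Hh (y : ℤ) : ℤ := if (7 : ℤ) ∣ y then y ^ 2 else 7 * y ^ 2

private theorem Hh_nonneg (y : ℤ) : 0 ≤ Hh y := by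
  unfold Hh
  split_ifs <;> positivity

private theorem Hh_neg (y : ℤ) : Hh (-y) = Hh y := by
  unfold Hh
  simp only [dvd_neg, neg_sq]

private theorem Hh_lt {y z : ℤ} (h : z ^ 2 < y ^ 2) (h7 : (7 : ℤ) ∣ z ↔ (7 : ℤ) ∣ y) : Hh z < Hh y := by
  unfold Hh
  by_cases hy : (7 : ℤ) ∣ y
  · rw [if_pos hy, if_pos (h7.2 hy)]
    exact h
  · rw [if_neg hy, if_neg fun hz => hy (h7.1 hz)]
    linarith

private theorem Hh_le (y : ℤ) : Hh y ≤ 7 * y ^ 2 := by
  unfold Hh
  have := sq_nonneg y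
  split_ifs <;> linarith

/-- The descent for `(1 1; 0 1)`, `W`, `A` and `B`. -/
private theorem euclid {R : Type} {G : ℤ → ℤ → R} (hG : Homog G)
    (hT : ∀ x y : ℤ, (x ≠ 0 ∨ y ≠ 0) → G (x + y) y = G x y)
    (hW : ∀ x y : ℤ, (x ≠ 0 ∨ y ≠ 0) → G (-y) (7 * x) = G x y)
    (hA : ∀ x y : ℤ, (x ≠ 0 ∨ y ≠ 0) → G (2 * x - y) (7 * x - 3 * y) = G x y)
    (hB : ∀ x y : ℤ, (x ≠ 0 ∨ y ≠ 0) → G (5 * x - 3 * y) (7 * x - 4 * y) = G x y) :
    ∀ (n : ℕ) (x y : ℤ), Hh y < n → (x ≠ 0 ∨ y ≠ 0) → G x y = G 1 0 := by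
  have hTk : ∀ (k x y : ℤ), y ≠ 0 → G (x + k * y) y = G x y := by
    intro k
    induction k using Int.induction_on with
    | zero => intro x y _; simp
    | succ i ih =>
      intro x y hy
      have h := hT (x + i * y) y (Or.inr hy)
      rw [ih x y hy] at h
      rw [← h]
      congr 1
      ring
    | pred i ih =>
      intro x y hy
      have h := hT (x + (-(i : ℤ) - 1) * y) y (Or.inr hy)
      rw [← h, ← ih x y hy]
      congr 1
      ring
  have hmod : ∀ x y : ℤ, y ≠ 0 → G (x % y) y = G x y := by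
    intro x y hy
    rw [← hTk (-(x / y)) x y hy]
    congr 1
    have := Int.emod_add_mul_ediv x y
    linarith
  have sW : ∀ x y : ℤ, y ≠ 0 → 7 * x ^ 2 < y ^ 2 →
      ∃ x' y' : ℤ, (x' ≠ 0 ∨ y' ≠ 0) ∧ Hh y' < Hh y ∧ G x' y' = G x y := by
    intro x y hy h
    by_cases h7 : (7 : ℤ) ∣ y
    · obtain ⟨z, hz⟩ := h7
      have hz0 : z ≠ 0 := by
        rintro rfl
        exact hy (by rw [hz, mul_zero])
      refine ⟨-z, x, Or.inl (neg_ne_zero.2 hz0), ?_, ?_⟩
      · have h1 := Hh_le x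
        have h2 : Hh y = y ^ 2 := by
          unfold Hh
          rw [if_pos ⟨z, hz⟩]
        rw [h2]
        linarith
      · rw [← hW x y (Or.inr hy), ← hG 7 (-z) x (by norm_num) (Or.inl (neg_ne_zero.2 hz0)), hz]
        congr 1
        ring
    · refine ⟨-y, 7 * x, Or.inl (neg_ne_zero.2 hy), ?_, hW x y (Or.inr hy)⟩
      have h1 : Hh (7 * x) = (7 * x) ^ 2 := by
        unfold Hh
        rw [if_pos (Dvd.intro _ rfl)]
      have h2 : Hh y = 7 * y ^ 2 := by
        unfold Hh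
        rw [if_neg h7]
      rw [h1, h2]
      nlinarith
  have step : ∀ x y : ℤ, 0 < y → 0 ≤ x → x < y →
      ∃ x' y' : ℤ, (x' ≠ 0 ∨ y' ≠ 0) ∧ Hh y' < Hh y ∧ G x' y' = G x y := by
    intro x y hy hx hxy
    have hy0 : y ≠ 0 := by omega
    by_cases h1 : 7 * x ^ 2 < y ^ 2
    · exact sW x y hy0 h1
    have h2 : 2 * y < 7 * x := by
      by_contra hcon
      apply h1
      nlinarith
    by_cases h3 : 7 * x < 4 * y
    · refine ⟨2 * x - y, 7 * x - 3 * y, ?_, Hh_lt ?_ ?_, hA x y (Or.inr hy0)⟩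
      · omega
      · apply sq_lt_sq' <;> linarith
      · omega
    by_cases h4 : 7 * x < 5 * y
    · refine ⟨5 * x - 3 * y, 7 * x - 4 * y, ?_, Hh_lt ?_ ?_, hB x y (Or.inr hy0)⟩
      · omega
      · apply sq_lt_sq' <;> linarith
      · omega
    have h5 : 7 * (x - y) ^ 2 < y ^ 2 := by
      have h6 : 7 * (y - x) ≤ 2 * y := by linarith
      have h7 : 0 ≤ y - x := by linarith
      nlinarith
    obtain ⟨x', y', e1, e2, e3⟩ := sW (x - y) y hy0 h5
    refine ⟨x', y', e1, e2, ?_⟩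
    rw [e3, ← hTk (-1) x y hy0]
    congr 1
    ring
  intro n
  induction n with
  | zero =>
    intro x y h
    have := Hh_nonneg y
    push_cast at h
    omega
  | succ n ih =>
    intro x y hn hxy
    by_cases hy : y = 0
    · subst hy
      have hx : x ≠ 0 := by
        rcases hxy with h | h
        · exact h
        · exact absurd rfl h
      have h := hG x 1 0 hx (Or.inl one_ne_zero)
      simpa using h
    · have key : ∃ x' y' : ℤ, (x' ≠ 0 ∨ y' ≠ 0) ∧ Hh y' < Hh y ∧ G x' y' = G x y := by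
        rcases lt_or_gt_of_ne hy with hneg | hpos
        · obtain ⟨x', y', h1, h2, h3⟩ := step ((-x) % (-y)) (-y) (by omega) (Int.emod_nonneg _ (by omega))
            (Int.emod_lt_of_pos _ (by omega))
          rw [Hh_neg] at h2
          refine ⟨x', y', h1, h2, ?_⟩
          rw [h3, hmod (-x) (-y) (by omega), ← hG (-1) x y (by norm_num) hxy]
          congr 1 <;> ring
        · obtain ⟨x', y', h1, h2, h3⟩ := step (x % y) y hpos (Int.emod_nonneg _ hy) (Int.emod_lt_of_pos _ hpos)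
          exact ⟨x', y', h1, h2, by rw [h3, hmod x y hy]⟩
      obtain ⟨x', y', h1, h2, h3⟩ := key
      rw [← h3]
      refine ih x' y' ?_ h1
      push_cast at hn
      omega

private theorem pow_six (a : ℤ) (h : ¬ (7 : ℤ) ∣ a) : ∃ j : ℤ, 1 - a ^ 6 = 7 * j := by
  have h1 : ((a : ℤ) : ZMod 7) ≠ 0 := by
    intro h2
    exact h ((ZMod.intCast_zmod_eq_zero_iff_dvd a 7).1 h2)
  have h2 : ∀ z : ZMod 7, z ≠ 0 → 1 - z ^ 6 = 0 := by decide
  have h3 := h2 _ h1
  have h4 : ((1 - a ^ 6 : ℤ) : ZMod 7) = 0 := by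
    push_cast
    exact h3
  exact (ZMod.intCast_zmod_eq_zero_iff_dvd (1 - a ^ 6) 7).1 h4

theorem hUIp : SHUIp := by
  intro p hp hp2 R _ r s χ hχ hu
  have hp0 : (p : ℤ) ≠ 0 := by
    have : p ≠ 0 := by omega
    exact_mod_cast this
  have hsq : ∀ k : ℕ, ∃ j : ℤ, 1 - ((p : ℤ) ^ k) ^ 6 = 7 * j := by
    intro k
    refine pow_six _ fun h => ?_
    have h7 : Prime (7 : ℤ) := Int.prime_iff_natAbs_prime.2 (by norm_num)
    exact hp2 (by exact_mod_cast h7.dvd_of_dvd_pow h)
  have detu : (p : ℤ) * 1 - 0 * 0 ≠ 0 := by simpa using hp0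
  have st1 : ∀ b : ℤ, EqC (act 1 (p * b) 0 1 χ) χ → EqC (act 1 b 0 1 χ) χ := by
    intro b hb
    have e1 : act 1 b 0 1 (act p 0 0 1 χ) = act p 0 0 1 (act 1 (p * b) 0 1 χ) := by
      rw [act_act, act_act]
      congr 1 <;> ring
    have h1 : EqC (act 1 b 0 1 χ) (act 1 b 0 1 (act p 0 0 1 χ)) := hu.symm.act (by norm_num)
    rw [e1] at h1
    exact h1.trans ((hb.act detu).trans hu)
  have st2 : ∀ c : ℤ, EqC (act 1 0 (p * c) 1 χ) χ → EqC (act 1 0 c 1 χ) χ := by
    intro c hc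
    have e1 : act 1 0 (p * c) 1 (act p 0 0 1 χ) = act p 0 0 1 (act 1 0 c 1 χ) := by
      rw [act_act, act_act]
      congr 1 <;> ring
    have h1 : EqC (act p 0 0 1 (act 1 0 c 1 χ)) (act p 0 0 1 χ) := by
      rw [← e1]
      exact (hu.act (by norm_num)).trans (hc.trans hu.symm)
    obtain ⟨k, hk⟩ := h1
    have hF : Homog (act 1 0 c 1 χ) := hχ.1.act (by norm_num)
    refine ⟨k, fun x y hxy => ?_⟩
    have hxy' : x ≠ 0 ∨ (p : ℤ) * y ≠ 0 := by
      rcases hxy with hx | hy
      · exact Or.inl hx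
      · exact Or.inr (mul_ne_zero hp0 hy)
    have h2 := hk x (p * y) hxy'
    have e2 : act p 0 0 1 (act 1 0 c 1 χ) x (p * y) = act 1 0 c 1 χ x y := by
      rw [← hF p x y hp0 hxy]
      show act 1 0 c 1 χ (p * x + 0 * (p * y)) (0 * x + 1 * (p * y)) = _
      congr 1 <;> ring
    have e3 : act p 0 0 1 χ x (p * y) = χ x y := by
      rw [← hχ.1 p x y hp0 hxy]
      show χ (p * x + 0 * (p * y)) (0 * x + 1 * (p * y)) = _
      congr 1 <;> ring
    rw [e2, e3] at h2
    exact h2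
  have hT : EqC (act 1 1 0 1 χ) χ := by
    have key : ∀ k : ℕ, EqC (act 1 ((p : ℤ) ^ k) 0 1 χ) χ → EqC (act 1 1 0 1 χ) χ := by
      intro k
      induction k with
      | zero => intro h; simpa using h
      | succ k ih =>
        intro h
        rw [pow_succ'] at h
        exact ih (st1 _ h)
    exact key r (hχ.2 1 ((p : ℤ) ^ r) 0 1 (Or.inl ⟨by ring, dvd_zero _⟩) (dvd_refl _)
      (dvd_zero _))
  have hL : EqC (act 1 0 7 1 χ) χ := by
    have key : ∀ k : ℕ, EqC (act 1 0 ((p : ℤ) ^ k * 7) 1 χ) χ → EqC (act 1 0 7 1 χ) χ := by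
      intro k
      induction k with
      | zero => intro h; simpa using h
      | succ k ih =>
        intro h
        rw [pow_succ', mul_assoc] at h
        exact ih (st2 _ h)
    exact key s (hχ.2 1 0 ((p : ℤ) ^ s * 7) 1 (Or.inl ⟨by ring, Dvd.intro_left _ rfl⟩)
      (dvd_zero _) (Dvd.intro _ rfl))
  -- the matrix `W`
  have hW : EqC (act 0 (-1) 7 0 χ) χ := by
    obtain ⟨k, hk⟩ := hsq r
    obtain ⟨j, hj⟩ := hsq s
    set P : ℤ := (p : ℤ) ^ r with hP
    set Q : ℤ := (p : ℤ) ^ s with hQ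
    have h0 : EqC (act (1 - P ^ 6 * Q ^ 6) (-P ^ 6) (7 * Q ^ 6) 7 χ) χ := by
      apply hχ.2
      · refine Or.inr ⟨by ring, ?_, Dvd.intro _ rfl, dvd_refl _⟩
        have e : 1 - P ^ 6 * Q ^ 6 = 7 * (k + P ^ 6 * j) := by
          linear_combination hk + P ^ 6 * hj
        rw [e]
        exact Dvd.intro _ rfl
      · exact ⟨-P ^ 5, by ring⟩
      · exact ⟨7 * Q ^ 5, by ring⟩
    have e : act 0 (-1) 7 0 χ = act 1 (-1) 0 1 (act 1 0 (7 * j) 1
        (act (1 - P ^ 6 * Q ^ 6) (-P ^ 6) (7 * Q ^ 6) 7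
          (act 1 (-k) 0 1 χ))) := by
      rw [act_act, act_act, act_act]
      congr 1
      · rw [← hj]; linear_combination (-1 : ℤ) * hk
      · rw [← hj]; ring
      · rw [← hj]; ring
      · rw [← hj]; ring
    rw [e]
    have d0 : (1 - P ^ 6 * Q ^ 6) * 7 - -P ^ 6 * (7 * Q ^ 6) ≠ 0 := by
      have : (1 - P ^ 6 * Q ^ 6) * 7 - -P ^ 6 * (7 * Q ^ 6) = 7 := by ring
      rw [this]
      norm_num
    have h1 := ((up hT (-k)).act d0).trans h0
    have h2 := (h1.act (a := 1) (b := 0) (c := 7 * j) (d := 1) (by norm_num)).trans (lo hL j)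
    exact (h2.act (a := 1) (b := -1) (c := 0) (d := 1) (by norm_num)).trans (up hT (-1))
  -- the matrices of determinant one with lower left entry `7`
  have h77 : ∀ a b d : ℤ, a * d - b * 7 = 1 → EqC (act a b 7 d χ) χ := by
    intro a b d hd
    obtain ⟨k, hk⟩ := hsq r
    obtain ⟨j, hj⟩ := hsq s
    set P : ℤ := (p : ℤ) ^ r with hP
    set Q : ℤ := (p : ℤ) ^ s with hQ
    set N : ℤ := P ^ 6 * Q ^ 6 with hN
    set w : ℤ := k + P ^ 6 * j with hw
    have hNw : 1 - N = 7 * w := by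
      rw [hN, hw]
      linear_combination hk + P ^ 6 * hj
    set m : ℤ := (1 - d) * w with hm
    set e : ℤ := (1 - d) * N with he
    have hme : 7 * m + d = 1 - e := by
      rw [hm, he]
      linear_combination (-(1 - d)) * hNw
    set b2 : ℤ := b + a * m with hb2
    have hdet : (a - 7 * b2 - 7 * b2 * e) * (1 - e) - b2 * e * (7 * e) = 1 := by
      have : (a - 7 * b2 - 7 * b2 * e) * (1 - e) - b2 * e * (7 * e) = a * (1 - e) - 7 * b2 := by ring
      rw [this, ← hme, hb2]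
      linear_combination hd
    have h0 : EqC (act (a - 7 * b2 - 7 * b2 * e) (b2 * e) (7 * e) (1 - e) χ) χ := by
      apply hχ.2
      · exact Or.inl ⟨hdet, Dvd.intro _ rfl⟩
      · exact ⟨b2 * (1 - d) * P ^ 5 * Q ^ 6, by rw [he, hN]; ring⟩
      · exact ⟨7 * (1 - d) * P ^ 6 * Q ^ 5, by rw [he, hN]; ring⟩
    have e1 : act a b 7 d χ = act 1 (-m) 0 1 (act 1 0 7 1
        (act (a - 7 * b2 - 7 * b2 * e) (b2 * e) (7 * e) (1 - e) (act 1 b2 0 1 χ))) := by
      rw [act_act, act_act, act_act]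
      congr 1
      · ring
      · rw [hb2]; ring
      · ring
      · linear_combination hme
    rw [e1]
    have h1 := ((up hT b2).act (by rw [hdet]; exact one_ne_zero)).trans h0
    have h2 := (h1.act (a := 1) (b := 0) (c := 7) (d := 1) (by norm_num)).trans hL
    exact (h2.act (a := 1) (b := -m) (c := 0) (d := 1) (by norm_num)).trans (up hT (-m))
  -- constants
  obtain ⟨ct, hct⟩ := hT
  have hct0 : ct = 0 := by
    have h := hct 1 0 (Or.inl one_ne_zero)
    simpa [act] using h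
  obtain ⟨w, hw⟩ := hW
  have h2w : w + w = 0 := by
    have h1 := hw 1 0 (Or.inl one_ne_zero)
    have h2 := hw 0 7 (Or.inr (by norm_num))
    have h3 := hχ.1 (-7) 1 0 (by norm_num) (Or.inl one_ne_zero)
    simp only [act] at h1 h2
    norm_num at h1 h2 h3
    rw [h3, h1, add_assoc] at h2
    exact (left_eq_add.1 h2)
  obtain ⟨u, hu1⟩ := h77 2 (-1) (-3) (by norm_num)
  have h3u : u + u + u = 0 := by
    have h1 := hu1 1 0 (Or.inl one_ne_zero)
    have h2 := hu1 2 7 (Or.inl two_ne_zero)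
    have h3 := hu1 (-3) (-7) (Or.inl (by norm_num))
    simp only [act] at h1 h2 h3
    norm_num at h1 h2 h3
    rw [h2, h1, add_assoc, add_assoc] at h3
    rw [add_assoc]
    exact (left_eq_add.1 h3)
  obtain ⟨v, hv1⟩ := h77 5 (-3) (-4) (by norm_num)
  have h3v : v + v + v = 0 := by
    have h1 := hv1 1 0 (Or.inl one_ne_zero)
    have h2 := hv1 5 7 (Or.inl (by norm_num))
    have h3 := hv1 4 7 (Or.inl (by norm_num))
    have h4 := hχ.1 (-1) 1 0 (by norm_num) (Or.inl one_ne_zero)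
    simp only [act] at h1 h2 h3
    norm_num at h1 h2 h3 h4
    rw [h4, h2, h1, add_assoc, add_assoc] at h3
    rw [add_assoc]
    exact (left_eq_add.1 h3)
  have h6w : (6 : ℤ) • w = 0 := by
    have : (6 : ℤ) • w = (3 : ℤ) • (w + w) := by
      rw [← two_smul ℤ w, smul_smul]
      norm_num
    rw [this, h2w, smul_zero]
  have h6u : (6 : ℤ) • u = 0 := by
    have : (6 : ℤ) • u = (2 : ℤ) • (u + u + u) := by
      have e3 : u + u + u = (3 : ℤ) • u := by
        rw [show (3 : ℤ) = 1 + 1 + 1 by norm_num, add_smul, add_smul, one_smul]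
      rw [e3, smul_smul]
      norm_num
    rw [this, h3u, smul_zero]
  have h6v : (6 : ℤ) • v = 0 := by
    have : (6 : ℤ) • v = (2 : ℤ) • (v + v + v) := by
      have e3 : v + v + v = (3 : ℤ) • v := by
        rw [show (3 : ℤ) = 1 + 1 + 1 by norm_num, add_smul, add_smul, one_smul]
      rw [e3, smul_smul]
      norm_num
    rw [this, h3v, smul_zero]
  refine ⟨(6 : ℤ) • χ 1 0, fun x y hxy => ?_⟩
  have key := euclid (G := (6 : ℤ) • χ) (hχ.1.smul (6 : ℤ)) ?_ ?_ ?_ ?_ ((Hh y).toNat + 1) x y (by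
    have := Int.self_le_toNat (Hh y)
    push_cast
    omega) hxy
  · rw [key]; simp
  · intro x y hxy
    have h := hct x y hxy
    rw [hct0, add_zero] at h
    simp only [act, one_mul, zero_mul, zero_add] at h
    show (6 : ℤ) • χ (x + y) y = (6 : ℤ) • χ x y
    rw [h]
  · intro x y hxy
    have h := hw x y hxy
    simp only [act, zero_mul, zero_add, add_zero, neg_mul, one_mul] at h
    show (6 : ℤ) • χ (-y) (7 * x) = (6 : ℤ) • χ x y
    rw [h, smul_add, h6w, add_zero]
  · intro x y hxy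
    have h : χ (2 * x - y) (7 * x - 3 * y) = χ x y + u := by
      rw [← hu1 x y hxy]
      show _ = χ (2 * x + -1 * y) (7 * x + -3 * y)
      congr 1 <;> ring
    show (6 : ℤ) • χ (2 * x - y) (7 * x - 3 * y) = (6 : ℤ) • χ x y
    rw [h, smul_add, h6u, add_zero]
  · intro x y hxy
    have h : χ (5 * x - 3 * y) (7 * x - 4 * y) = χ x y + v := by
      rw [← hv1 x y hxy]
      show _ = χ (5 * x + -3 * y) (7 * x + -4 * y)
      congr 1 <;> ring
    show (6 : ℤ) • χ (5 * x - 3 * y) (7 * x - 4 * y) = (6 : ℤ) • χ x y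
    rw [h, smul_add, h6v, add_zero]

end Pool.Agent.Helper88.T7W
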